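import Pool.Agent.MNU.StmtsU
import Pool.Agent.Helper35_MNT.HBD

set_option autoImplicit false

/-!
# MNU, row HBE: bound of the sum of `l - J`
-/

namespace Pool.Agent.MNU.H91

open Pool.Agent.MNT
open scoped Classical

/-- HBE -/
theorem hbe (hb2 : Hb2Stmt) (lg2 : MNT.Lg2Stmt) (lgn : MNT.LgnStmt) : HbeStmt := by
  intro g hg V _ _ _ T G a b l s r hl hlab hres
  by_cases h2 : g = 2
  · subst h2
    have h := hb2 V T G a b l s r hl hlab hres
    refine h.trans (le_of_eq ?_)
    rw [Finset.mul_sum, ← Finset.filter_filter, Finset.sum_filter]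
    refine Finset.sum_congr rfl fun c _ => ?_
    unfold ef
    by_cases he : Even (a c)
    · rw [if_pos he, if_neg (Nat.not_odd_iff_even.2 he), if_pos rfl]
    · rw [if_neg he, if_pos (Nat.not_even_iff_odd.1 he), zero_mul]
  · have hlab' : MNT.Lab g T G a b :=
      { a_pos := hlab.a_pos
        a_le := hlab.a_le
        b_le := fun v => (hlab.b_le v).trans (by omega)
        two_le := hlab.two_le
        proper := fun v hv ha => (hlab.proper v hv ha).trans_le (by omega)
        a_kids := hlab.a_kids
        b_kids := hlab.b_kids
        top := hlab.top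
        even := hlab.even
        sum_eq := hlab.sum_eq
        kids_even := hlab.kids_even }
    have h := MNT.H35.hbd lg2 lgn g hg V T G a b l s r hl hlab' hres
    refine h.trans (le_of_eq ?_)
    refine Finset.sum_congr rfl fun c _ => ?_
    unfold ef ee
    rw [if_neg h2]

end Pool.Agent.MNU.H91
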